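import Pool.Agent.Helper729.SRDMain

/-!
# Pairs of maps with `r(φ(T) - ψ(S)) = r(T - S)` for all `T` and for `S` of rank at most one

This file adapts part of `Pool/Agent/Helper729/SRDCore.lean` to the case where only the first map
is assumed to be surjective and `S` runs only through a set which contains the operators of rank
at most one.
-/

set_option autoImplicit false
open Filter Topology Complex Set Metric

namespace Pool.Agent.Y852.SR

open Pool.Agent.Helper729.SRD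

section
variable {X Y : Type*} [NormedAddCommGroup X] [NormedSpace ℂ X]
  [NormedAddCommGroup Y] [NormedSpace ℂ Y]

/-- the basic hypothesis for a pair of maps, the first one surjective -/
structure HalfPair (s : Set (X →L[ℂ] X)) (φ ψ : (X →L[ℂ] X) → (Y →L[ℂ] Y)) : Prop where
  surj : Function.Surjective φ
  mem : ∀ (f : X →L[ℂ] ℂ) (x : X), f.smulRight x ∈ s
  eq : ∀ T, ∀ S ∈ s, sr (φ T - ψ S) = sr (T - S)

theorem smulRight_smul' (f : X →L[ℂ] ℂ) (c : ℂ) (x : X) :
    f.smulRight (c • x) = c • f.smulRight x := by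
  ext y
  change f y • c • x = c • f y • x
  rw [smul_comm]

variable {s : Set (X →L[ℂ] X)}

theorem HalfPair.mem_smul {φ ψ : (X →L[ℂ] X) → (Y →L[ℂ] Y)} (h : HalfPair s φ ψ)
    (f : X →L[ℂ] ℂ) (x : X) (c : ℂ) : c • f.smulRight x ∈ s := by
  rw [← smulRight_smul']
  exact h.mem f _

theorem HalfPair.mem_neg {φ ψ : (X →L[ℂ] X) → (Y →L[ℂ] Y)} (h : HalfPair s φ ψ)
    (f : X →L[ℂ] ℂ) (x : X) (c : ℂ) : -(c • f.smulRight x) ∈ s := by
  rw [← neg_smul]
  exact h.mem_smul f x _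

theorem HalfPair.zero_mem {φ ψ : (X →L[ℂ] X) → (Y →L[ℂ] Y)} (h : HalfPair s φ ψ) :
    (0 : X →L[ℂ] X) ∈ s := by
  have := h.mem_smul 0 0 0
  rwa [zero_smul] at this

variable [CompleteSpace X] [CompleteSpace Y]

theorem HalfPair.eq_symm {φ ψ : (X →L[ℂ] X) → (Y →L[ℂ] Y)} (h : HalfPair s φ ψ) (T S : X →L[ℂ] X)
    (hT : T ∈ s) : sr (ψ T - φ S) = sr (T - S) := by
  rw [sr_sub_comm, h.eq _ _ hT, sr_sub_comm]

omit [CompleteSpace Y] in
theorem eq_of_rank_one {T T' : X →L[ℂ] X}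
    (h : ∀ (f : X →L[ℂ] ℂ) (x : X), sr (T + f.smulRight x) = sr (T' + f.smulRight x)) :
    T = T' := by
  rw [← sub_eq_zero]
  ext x
  by_contra hx
  have hx0 : x ≠ 0 := by
    rintro rfl
    exact hx (by simp)
  obtain ⟨f, hf1, hf2⟩ := SeparatingDual.exists_eq_one_ne_zero_of_ne_zero_pair (R := ℂ) hx0 hx
  apply hf2
  set m : ℝ := max 1 (max ‖T‖ ‖T'‖) with hm
  set p : ℝ := max 1 (‖f‖ * ‖x‖) with hp
  have key : ∀ u : ℂ, ‖u‖ = 1 →
      ((starRingEnd ℂ) u * f (T x)).re = ((starRingEnd ℂ) u * f (T' x)).re := by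
    intro u hu
    set C : ℝ := 200 * p ^ 2 * m ^ 2 with hC
    have hlim : Tendsto (fun l : ℝ => 2 * (C / l)) atTop (𝓝 0) := by
      have : Tendsto (fun l : ℝ => C / l) atTop (𝓝 0) := tendsto_const_nhds.div_atTop tendsto_id
      simpa using this.const_mul 2
    have hev : ∀ᶠ l : ℝ in atTop,
        |((starRingEnd ℂ) u * f (T x)).re - ((starRingEnd ℂ) u * f (T' x)).re| ≤ 2 * (C / l) := by
      filter_upwards [eventually_ge_atTop (100 * p * m)] with l hl
      have h1 := (busemann_log T f x hf1 (le_max_left _ _) (le_max_left _ _)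
        ((le_max_left _ _).trans (le_max_right _ _)) (le_max_right _ _) hl hu).2
      have h2 := (busemann_log T' f x hf1 (le_max_left _ _) (le_max_left _ _)
        ((le_max_right _ _).trans (le_max_right _ _)) (le_max_right _ _) hl hu).2
      have h3 := h f (((l : ℂ) * u) • x)
      rw [smulRight_smul'] at h3
      rw [h3] at h1
      rw [abs_le] at h1 h2 ⊢
      constructor
      · linarith [h1.1, h1.2, h2.1, h2.2]
      · linarith [h1.1, h1.2, h2.1, h2.2]
    have h0 := ge_of_tendsto hlim hev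
    have h1 := abs_nonpos_iff.1 h0
    linarith
  have k1 := key 1 (by simp)
  have k2 := key Complex.I (by simp)
  simp only [map_one, one_mul] at k1
  simp only [Complex.conj_I, neg_mul, Complex.neg_re, Complex.I_mul_re, neg_neg] at k2
  have h3 : f (T x) = f (T' x) := Complex.ext k1 k2
  have h4 : (T - T') x = T x - T' x := rfl
  rw [h4, map_sub, h3, sub_self]

theorem HalfPair.bd2 {φ ψ : (X →L[ℂ] X) → (Y →L[ℂ] Y)} (h : HalfPair s φ ψ) (ρ : ℝ) :
    ∃ K : ℝ, ∀ T, ‖φ T‖ ≤ ρ → ‖T‖ ≤ K := by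
  obtain ⟨C, hC⟩ := ub (fun T : {T : X →L[ℂ] X // ‖φ T‖ ≤ ρ} => T.1) (by
    intro f x
    refine ⟨ρ + ‖ψ (f.smulRight x)‖, fun T => ?_⟩
    rw [← h.eq _ _ (h.mem f x)]
    exact ((sr_le_norm _).trans (norm_sub_le _ _)).trans (by linarith [T.2]))
  exact ⟨C, fun T hT => hC ⟨T, hT⟩⟩

theorem HalfPair.growth {φ ψ : (X →L[ℂ] X) → (Y →L[ℂ] Y)} (h : HalfPair s φ ψ) :
    ∃ K : ℝ, 0 ≤ K ∧ ∀ T ∈ s, ‖ψ T‖ ≤ K * (1 + ‖T‖) ^ 2 := by
  obtain ⟨C, hC⟩ := weak_bdd (fun T : {T : X →L[ℂ] X // T ∈ s} =>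
      ((((1 + ‖T.1‖) ^ 2)⁻¹ : ℝ) : ℂ) • ψ T.1) (by
    intro g y
    obtain ⟨K1, hK1⟩ := h.bd2 ‖g.smulRight y‖
    refine ⟨(|K1| + 1) ^ 2, ?_⟩
    rintro ⟨T, hTs⟩
    dsimp only
    have h1 : ‖g (ψ T y)‖ ≤ (‖T‖ + |K1| + 1) ^ 2 / 1 := by
      apply cauchy_est (ψ T) g y (by positivity) one_pos
      intro t ht
      obtain ⟨S, hS⟩ := h.surj (t • g.smulRight y)
      have h2 : ‖S‖ ≤ K1 := by
        apply hK1
        rw [hS, norm_smul]
        have := norm_nonneg (g.smulRight y)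
        nlinarith
      rw [← hS, h.eq_symm _ _ hTs]
      refine ((sr_le_norm _).trans (norm_sub_le _ _)).trans ?_
      have := le_abs_self K1
      linarith
    have hpos : (0:ℝ) < (1 + ‖T‖) ^ 2 := by positivity
    have h3 : g ((((((1 + ‖T‖) ^ 2)⁻¹ : ℝ) : ℂ) • ψ T) y) =
        ((((1 + ‖T‖) ^ 2)⁻¹ : ℝ) : ℂ) * g (ψ T y) := by
      rw [ContinuousLinearMap.smul_apply, map_smul, smul_eq_mul]
    rw [h3, norm_mul, Complex.norm_real, Real.norm_of_nonneg (by positivity), inv_mul_le_iff₀ hpos]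
    rw [div_one] at h1
    refine h1.trans ?_
    rw [← mul_pow]
    apply pow_le_pow_left₀ (by positivity)
    have := mul_nonneg (norm_nonneg T) (abs_nonneg K1)
    nlinarith)
  refine ⟨|C|, abs_nonneg C, fun T hTs => ?_⟩
  have hpos : (0:ℝ) < (1 + ‖T‖) ^ 2 := by positivity
  have h1 := hC ⟨T, hTs⟩
  dsimp only at h1
  rw [norm_smul, Complex.norm_real, Real.norm_of_nonneg (by positivity), inv_mul_le_iff₀ hpos] at h1
  have h2 := le_abs_self C
  nlinarith

theorem HalfPair.growth2 {φ ψ : (X →L[ℂ] X) → (Y →L[ℂ] Y)} (h : HalfPair s φ ψ)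
    (f : X →L[ℂ] ℂ) (x : X) :
    ∃ K : ℝ, 0 ≤ K ∧ ∀ T : X →L[ℂ] X, ‖f (T x)‖ ≤ K * (1 + ‖φ T‖) ^ (3 / 2 : ℝ) := by
  obtain ⟨K, hK0, hK⟩ := h.growth
  set F := f.smulRight x with hF
  refine ⟨(1 + K * (1 + ‖F‖) ^ 2) ^ 2, by positivity, fun T => ?_⟩
  set N := 1 + ‖φ T‖ with hN
  have hN1 : 1 ≤ N := by rw [hN]; linarith [norm_nonneg (φ T)]
  have hN0 : 0 < N := by linarith
  set M := Real.sqrt N with hM
  have hM1 : 1 ≤ M := by rw [hM]; exact Real.one_le_sqrt.2 hN1
  have hM2 : M ^ 2 = N := Real.sq_sqrt hN0.le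
  have hM0 : 0 < M := by linarith
  have h1 : ‖f (T x)‖ ≤ ((1 + K * (1 + ‖F‖) ^ 2) * N) ^ 2 / M := by
    apply cauchy_est T f x (by positivity) hM0
    intro t ht
    rw [← hF, ← h.eq _ _ (h.mem_smul f x t)]
    refine ((sr_le_norm _).trans (norm_sub_le _ _)).trans ?_
    have h2 : ‖ψ (t • F)‖ ≤ K * (1 + ‖F‖) ^ 2 * N := by
      refine (hK _ (h.mem_smul f x t)).trans ?_
      rw [mul_assoc]
      apply mul_le_mul_of_nonneg_left _ hK0
      rw [norm_smul, ← hM2, ← mul_pow]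
      apply pow_le_pow_left₀ (by positivity)
      have h3 : ‖t‖ * ‖F‖ ≤ M * ‖F‖ := mul_le_mul_of_nonneg_right ht (norm_nonneg _)
      nlinarith
    have h4 : ‖φ T‖ ≤ N := by rw [hN]; linarith
    linarith
  refine h1.trans (le_of_eq ?_)
  have h5 : N ^ (3 / 2 : ℝ) = N ^ 2 / M := by
    rw [hM, Real.sqrt_eq_rpow, eq_div_iff (by positivity), ← Real.rpow_add hN0,
      ← Real.rpow_natCast]
    norm_num
  rw [h5]
  ring

theorem HalfPair.beta_meas {φ ψ : (X →L[ℂ] X) → (Y →L[ℂ] Y)} (h : HalfPair s φ ψ)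
    (f : X →L[ℂ] ℂ) (x : X) (hfx : f x = 1) (φi : (Y →L[ℂ] Y) → (X →L[ℂ] X))
    (hφi : ∀ S, φ (φi S) = S) (S₀ S₁ : Y →L[ℂ] Y) {u : ℂ} (hu : ‖u‖ = 1) :
    Measurable fun z : ℂ => ((starRingEnd ℂ) u * f (φi (S₀ + z • S₁) x)).re := by
  set g : ℕ → ℂ → ℝ := fun n z => (n : ℝ) * (Real.log (sr ((S₀ - ψ (-(((n : ℂ) * u) • f.smulRight x)))
    + z • S₁)) - Real.log n) with hg
  have hgm : ∀ n, Measurable (g n) := by
    intro n
    have h1 := measurable_sr_line (S₀ - ψ (-(((n : ℂ) * u) • f.smulRight x))) S₁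
    exact ((Real.measurable_log.comp h1).sub_const _).const_mul _
  refine measurable_of_tendsto_metrizable hgm ?_
  rw [tendsto_pi_nhds]
  intro z
  set T := φi (S₀ + z • S₁) with hT
  set m : ℝ := max 1 ‖T‖ with hm
  set p : ℝ := max 1 (‖f‖ * ‖x‖) with hp
  have hsr : ∀ n : ℕ, sr ((S₀ - ψ (-(((n : ℂ) * u) • f.smulRight x))) + z • S₁) =
      sr (T + ((n : ℂ) * u) • f.smulRight x) := by
    intro n
    have h1 := h.eq T (-(((n : ℂ) * u) • f.smulRight x)) (h.mem_neg f x _)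
    rw [hT, hφi, sub_neg_eq_add] at h1
    rw [hT, ← h1]
    congr 1
    abel
  rw [tendsto_iff_norm_sub_tendsto_zero]
  have hbd : ∀ᶠ n : ℕ in atTop, ‖g n z - ((starRingEnd ℂ) u * f (T x)).re‖ ≤
      200 * p ^ 2 * m ^ 2 / n := by
    filter_upwards [eventually_ge_atTop ⌈100 * p * m⌉₊] with n hn
    have hn' : 100 * p * m ≤ (n : ℝ) := (Nat.le_ceil _).trans (by exact_mod_cast hn)
    have hb := (busemann_log T f x hfx (le_max_left _ _) (le_max_left _ _) (le_max_right _ _)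
      (le_max_right _ _) hn' hu).2
    rw [Real.norm_eq_abs]
    simp only [hg]
    rw [hsr]
    exact_mod_cast hb
  have hlim : Tendsto (fun n : ℕ => 200 * p ^ 2 * m ^ 2 / (n : ℝ)) atTop (𝓝 0) :=
    tendsto_const_div_atTop_nhds_zero_nat _
  exact squeeze_zero' (Eventually.of_forall fun n => norm_nonneg _) hbd hlim

theorem HalfPair.beta_sub {φ ψ : (X →L[ℂ] X) → (Y →L[ℂ] Y)} (h : HalfPair s φ ψ)
    (f : X →L[ℂ] ℂ) (x : X) (hfx : f x = 1) (φi : (Y →L[ℂ] Y) → (X →L[ℂ] X))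
    (hφi : ∀ S, φ (φi S) = S) (S₀ S₁ : Y →L[ℂ] Y) {u : ℂ} (hu : ‖u‖ = 1) {ρ : ℝ} (hρ : 0 < ρ) :
    ((starRingEnd ℂ) u * f (φi S₀ x)).re ≤
      Real.circleAverage (fun z : ℂ => ((starRingEnd ℂ) u * f (φi (S₀ + z • S₁) x)).re) 0 ρ ∧
    CircleIntegrable (fun z : ℂ => ((starRingEnd ℂ) u * f (φi (S₀ + z • S₁) x)).re) 0 ρ := by
  obtain ⟨K, hK⟩ := h.bd2 (‖S₀‖ + ρ * ‖S₁‖)
  set m : ℝ := max 1 K with hm
  set p : ℝ := max 1 (‖f‖ * ‖x‖) with hp
  have hm1 : 1 ≤ m := le_max_left _ _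
  have hp1 : 1 ≤ p := le_max_left _ _
  set β : ℂ → ℝ := fun z => ((starRingEnd ℂ) u * f (φi (S₀ + z • S₁) x)).re with hβ
  have hβm : Measurable β := h.beta_meas f x hfx φi hφi S₀ S₁ hu
  have hTn : ∀ z : ℂ, ‖z‖ ≤ ρ → ‖φi (S₀ + z • S₁)‖ ≤ m := by
    intro z hz
    refine (hK _ ?_).trans (le_max_right _ _)
    rw [hφi]
    refine (norm_add_le _ _).trans ?_
    rw [norm_smul]
    gcongr
  have hβb : ∀ z : ℂ, ‖z‖ ≤ ρ → |β z| ≤ p * m := by
    intro z hz
    refine (Complex.abs_re_le_norm _).trans ?_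
    rw [norm_mul, RCLike.norm_conj, hu, one_mul]
    refine (f.le_opNorm _).trans ?_
    have h1 : ‖φi (S₀ + z • S₁) x‖ ≤ ‖φi (S₀ + z • S₁)‖ * ‖x‖ := ContinuousLinearMap.le_opNorm _ _
    have h2 := hTn z hz
    have h3 : ‖f‖ * ‖x‖ ≤ p := le_max_right _ _
    calc ‖f‖ * ‖φi (S₀ + z • S₁) x‖ ≤ ‖f‖ * (m * ‖x‖) := by gcongr; exact h1.trans (by gcongr)
      _ = (‖f‖ * ‖x‖) * m := by ring
      _ ≤ p * m := by gcongr
  have hβi : CircleIntegrable β 0 ρ := circInt_aux hβm (M := p * m) (by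
    intro z hz
    rw [mem_sphere, dist_zero_right, abs_of_pos hρ] at hz
    exact hβb z hz.le)
  refine ⟨?_, hβi⟩
  set Cc : ℝ := 200 * p ^ 2 * m ^ 2 with hCc
  have hmain : ∀ l : ℝ, 100 * p * m ≤ l → β 0 ≤ Real.circleAverage β 0 ρ + 2 * (Cc / l) := by
    intro l hl
    have hl0 : 0 < l := lt_of_lt_of_le (by positivity) hl
    set c := ψ (-(((l : ℂ) * u) • f.smulRight x)) with hc
    have hsr : ∀ z : ℂ, sr ((S₀ - c) + z • S₁) =
        sr (φi (S₀ + z • S₁) + ((l : ℂ) * u) • f.smulRight x) := by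
      intro z
      have h1 := h.eq (φi (S₀ + z • S₁)) (-(((l : ℂ) * u) • f.smulRight x)) (h.mem_neg f x _)
      rw [hφi, sub_neg_eq_add] at h1
      rw [← h1]
      congr 1
      abel
    have hb : ∀ z : ℂ, ‖z‖ ≤ ρ → 1 ≤ sr ((S₀ - c) + z • S₁) ∧
        |l * (Real.log (sr ((S₀ - c) + z • S₁)) - Real.log l) - β z| ≤ Cc / l := by
      intro z hz
      rw [hsr]
      exact busemann_log (φi (S₀ + z • S₁)) f x hfx hm1 hp1 (hTn z hz) (le_max_right _ _) hl hu
    set s : ℂ → ℝ := fun z => Real.log (sr ((S₀ - c) + z • S₁)) with hs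
    have hsm : Measurable s := Real.measurable_log.comp (measurable_sr_line (S₀ - c) S₁)
    have hlow : ∀ z : ℂ, ‖z‖ ≤ ρ → s z ≤ (β z + Cc / l) / l + Real.log l := by
      intro z hz
      have h1 := (abs_le.1 (hb z hz).2).2
      have h2 : l * (s z - Real.log l) ≤ β z + Cc / l := by
        simp only [hs]; linarith
      have h3 : s z - Real.log l ≤ (β z + Cc / l) / l := by
        rw [le_div_iff₀ hl0]; linarith
      linarith
    have h00 : ‖(0 : ℂ)‖ ≤ ρ := by simp [hρ.le]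
    have ha1 : 1 ≤ sr (S₀ - c) := by
      have := (hb 0 h00).1
      simpa using this
    have hsub := submean (S₀ - c) S₁ hρ ha1 (fun ζ hζ => (hb ζ hζ.le).1)
    have hsi : CircleIntegrable s 0 ρ := by
      apply circInt_aux hsm (M := (p * m + Cc / l) / l + |Real.log l|)
      intro z hz
      rw [mem_sphere, dist_zero_right, abs_of_pos hρ] at hz
      have h1 := abs_le.1 (hb z hz.le).2
      have h2 := abs_le.1 (hβb z hz.le)
      have h3 : |s z - Real.log l| ≤ (p * m + Cc / l) / l := by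
        rw [le_div_iff₀ hl0, ← abs_of_pos hl0, ← abs_mul, abs_of_pos hl0, abs_le]
        have e : (s z - Real.log l) * l = l * (Real.log (sr ((S₀ - c) + z • S₁)) - Real.log l) := by
          simp only [hs]; ring
        rw [e]
        constructor <;> linarith [h1.1, h1.2, h2.1, h2.2]
      have h4 := abs_add_le (s z - Real.log l) (Real.log l)
      rw [sub_add_cancel] at h4
      linarith
    have hri : CircleIntegrable (fun z => (β z + Cc / l) / l + Real.log l) 0 ρ := by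
      apply circInt_aux (((hβm.add_const _).div_const _).add_const _)
        (M := (p * m + Cc / l) / l + |Real.log l|)
      intro z hz
      rw [mem_sphere, dist_zero_right, abs_of_pos hρ] at hz
      have h2 := hβb z hz.le
      have hCl : 0 ≤ Cc / l := by positivity
      refine (abs_add_le _ _).trans ?_
      have h5 : |(β z + Cc / l) / l| ≤ (p * m + Cc / l) / l := by
        rw [abs_div, abs_of_pos hl0]
        gcongr
        refine (abs_add_le _ _).trans ?_
        rw [abs_of_nonneg hCl]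
        linarith
      linarith
    have hmono := Real.circleAverage_mono hsi hri (fun z hz => hlow z (by
      rw [mem_sphere, dist_zero_right, abs_of_pos hρ] at hz
      exact hz.le))
    have havg : Real.circleAverage (fun z => (β z + Cc / l) / l + Real.log l) 0 ρ =
        (Real.circleAverage β 0 ρ + Cc / l) / l + Real.log l := by
      have hc1 : CircleIntegrable (fun _ : ℂ => Cc / l ^ 2 + Real.log l) 0 ρ :=
        circInt_aux measurable_const (M := |Cc / l ^ 2 + Real.log l|) (fun _ _ => le_rfl)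
      have e1 : (fun z => (β z + Cc / l) / l + Real.log l) =
          (fun z => (1 / l) • β z) + (fun _ => Cc / l ^ 2 + Real.log l) := by
        funext z
        simp only [Pi.add_apply, smul_eq_mul]
        field_simp
        ring
      have hc2 : CircleIntegrable (fun z => (1 / l) • β z) 0 ρ := hβi.const_smul
      rw [e1, Real.circleAverage_add hc2 hc1, Real.circleAverage_const,
        Real.circleAverage_fun_smul]
      simp only [smul_eq_mul]
      field_simp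
      ring
    have h0 : l * (Real.log (sr (S₀ - c)) - Real.log l) ≥ β 0 - Cc / l := by
      have h1 := (abs_le.1 (hb 0 h00).2).1
      rw [zero_smul, add_zero] at h1
      linarith
    have h1 : Real.log (sr (S₀ - c)) ≤ (Real.circleAverage β 0 ρ + Cc / l) / l + Real.log l := by
      rw [← havg]
      exact hsub.trans hmono
    have h2 : Real.log (sr (S₀ - c)) - Real.log l ≤ (Real.circleAverage β 0 ρ + Cc / l) / l := by
      linarith
    rw [le_div_iff₀ hl0] at h2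
    linarith
  have hβ0 : β 0 = ((starRingEnd ℂ) u * f (φi S₀ x)).re := by
    simp only [hβ, zero_smul, add_zero]
  rw [← hβ0]
  apply le_of_forall_pos_le_add
  intro e he
  have hlim : Tendsto (fun l : ℝ => 2 * (Cc / l)) atTop (𝓝 0) := by
    have : Tendsto (fun l : ℝ => Cc / l) atTop (𝓝 0) := tendsto_const_nhds.div_atTop tendsto_id
    simpa using this.const_mul 2
  have hev := (hlim.eventually (gt_mem_nhds he)).and (eventually_ge_atTop (100 * p * m))
  obtain ⟨l, hl1, hl2⟩ := hev.exists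
  have := hmain l hl2
  linarith

theorem HalfPair.beta_mv {φ ψ : (X →L[ℂ] X) → (Y →L[ℂ] Y)} (h : HalfPair s φ ψ)
    (f : X →L[ℂ] ℂ) (x : X) (hfx : f x = 1) (φi : (Y →L[ℂ] Y) → (X →L[ℂ] X))
    (hφi : ∀ S, φ (φi S) = S) (S₀ S₁ : Y →L[ℂ] Y) {u : ℂ} (hu : ‖u‖ = 1) (c : ℂ) {ρ : ℝ}
    (hρ : 0 < ρ) :
    Real.circleAverage (fun z : ℂ => ((starRingEnd ℂ) u * f (φi (S₀ + z • S₁) x)).re) c ρ =
      ((starRingEnd ℂ) u * f (φi (S₀ + c • S₁) x)).re := by
  rw [← Real.circleAverage_map_add_const]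
  have e : ∀ z : ℂ, S₀ + (z + c) • S₁ = (S₀ + c • S₁) + z • S₁ := by
    intro z
    rw [add_smul]
    abel
  simp only [e]
  apply le_antisymm
  · have h1 := (h.beta_sub f x hfx φi hφi (S₀ + c • S₁) S₁ (u := -u) (by rw [norm_neg, hu]) hρ).1
    have e2 : (fun z : ℂ => ((starRingEnd ℂ) (-u) * f (φi ((S₀ + c • S₁) + z • S₁) x)).re) =
        fun z => (-1 : ℝ) • ((starRingEnd ℂ) u * f (φi ((S₀ + c • S₁) + z • S₁) x)).re := by
      funext z
      simp
    rw [e2, Real.circleAverage_fun_smul] at h1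
    simp only [map_neg, neg_mul, Complex.neg_re, smul_eq_mul, one_mul] at h1
    linarith
  · exact (h.beta_sub f x hfx φi hφi (S₀ + c • S₁) S₁ hu hρ).1

theorem HalfPair.midpoint {φ ψ : (X →L[ℂ] X) → (Y →L[ℂ] Y)} (h : HalfPair s φ ψ)
    (f : X →L[ℂ] ℂ) (x : X) (hfx : f x = 1) (φi : (Y →L[ℂ] Y) → (X →L[ℂ] X))
    (hφi : ∀ S, φ (φi S) = S) (S₀ S₁ : Y →L[ℂ] Y) :
    f (φi (S₀ + S₁) x) + f (φi (S₀ - S₁) x) = 2 * f (φi S₀ x) := by
  obtain ⟨K, hK0, hK⟩ := h.growth2 f x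
  set K' : ℝ := K * (1 + ‖S₀‖ + ‖S₁‖) ^ (3 / 2 : ℝ) with hK'
  have hgrow : ∀ (u : ℂ), ‖u‖ = 1 → ∀ z : ℂ,
      |((starRingEnd ℂ) u * f (φi (S₀ + z • S₁) x)).re| ≤ K' * (1 + ‖z‖) ^ (3 / 2 : ℝ) := by
    intro u hu z
    refine (Complex.abs_re_le_norm _).trans ?_
    rw [norm_mul, RCLike.norm_conj, hu, one_mul]
    refine (hK _).trans ?_
    rw [hφi, hK', mul_assoc, ← Real.mul_rpow (by positivity) (by positivity)]
    apply mul_le_mul_of_nonneg_left _ hK0
    apply Real.rpow_le_rpow (by positivity) _ (by norm_num)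
    have h1 := norm_add_le S₀ (z • S₁)
    rw [norm_smul] at h1
    nlinarith [norm_nonneg S₀, norm_nonneg S₁, norm_nonneg z,
      mul_nonneg (norm_nonneg z) (norm_nonneg S₀)]
  have key : ∀ (u : ℂ), ‖u‖ = 1 →
      ((starRingEnd ℂ) u * f (φi (S₀ + S₁) x)).re + ((starRingEnd ℂ) u * f (φi (S₀ - S₁) x)).re =
        2 * ((starRingEnd ℂ) u * f (φi S₀ x)).re := by
    intro u hu
    have h1 := liouville_mv (fun z : ℂ => ((starRingEnd ℂ) u * f (φi (S₀ + z • S₁) x)).re)
      (h.beta_meas f x hfx φi hφi S₀ S₁ hu) K' (hgrow u hu)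
      (fun c ρ hρ => h.beta_mv f x hfx φi hφi S₀ S₁ hu c hρ) (-1) 1 1
    have e1 : S₀ + (-1 + 1 + 1 : ℂ) • S₁ = S₀ + S₁ := by
      rw [show (-1 + 1 + 1 : ℂ) = 1 by ring, one_smul]
    have e2 : S₀ + (-1 + 1 : ℂ) • S₁ = S₀ := by
      rw [show (-1 + 1 : ℂ) = 0 by ring, zero_smul, add_zero]
    have e3 : S₀ + (-1 : ℂ) • S₁ = S₀ - S₁ := by
      rw [neg_smul, one_smul, sub_eq_add_neg]
    simp only [e1, e2, e3] at h1
    linarith
  have k1 := key 1 (by simp)
  have k2 := key Complex.I (by simp)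
  simp only [map_one, one_mul] at k1
  simp only [Complex.conj_I, neg_mul, Complex.neg_re, Complex.I_mul_re, neg_neg] at k2
  apply Complex.ext
  · simp only [Complex.add_re, Complex.mul_re, Complex.re_ofNat, Complex.im_ofNat, zero_mul, sub_zero]
    exact k1
  · simp only [Complex.add_im, Complex.mul_im, Complex.re_ofNat, Complex.im_ofNat, zero_mul, add_zero]
    exact k2

theorem HalfPair.eq_of {φ ψ : (X →L[ℂ] X) → (Y →L[ℂ] Y)} (h : HalfPair s φ ψ) :
    (∀ T S, sr (φ T - φ S) = sr (T - S)) ∧ ∀ S ∈ s, ψ S = φ S := by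
  have hinj : Function.Injective φ := by
    intro T T' hTT
    apply eq_of_rank_one
    intro f x
    have h1 := h.eq T (f.smulRight (-x)) (h.mem f _)
    have h2 := h.eq T' (f.smulRight (-x)) (h.mem f _)
    have h3 : f.smulRight (-x) = -(f.smulRight x) := by
      have := smulRight_smul' f (-1) x
      rwa [neg_one_smul, neg_one_smul] at this
    rw [h3, sub_neg_eq_add] at h1 h2
    rw [hTT] at h1
    rw [← h1, ← h2]
  set φi : (Y →L[ℂ] Y) → (X →L[ℂ] X) := Function.surjInv h.surj with hφi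
  have hr : ∀ S, φ (φi S) = S := fun S => Function.surjInv_eq h.surj S
  have hl : ∀ T, φi (φ T) = T := fun T => hinj (hr _)
  have hmid : ∀ S₀ S₁ : Y →L[ℂ] Y, φi (S₀ + S₁) + φi (S₀ - S₁) = (2 : ℂ) • φi S₀ := by
    intro S₀ S₁
    rw [← sub_eq_zero]
    ext x
    by_contra hx
    have hx0 : x ≠ 0 := by
      rintro rfl
      exact hx (by simp)
    obtain ⟨f, hf1, hf2⟩ := SeparatingDual.exists_eq_one_ne_zero_of_ne_zero_pair (R := ℂ) hx0 hx
    apply hf2
    have h1 := h.midpoint f x hf1 φi hr S₀ S₁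
    simp only [ContinuousLinearMap.sub_apply, ContinuousLinearMap.add_apply,
      ContinuousLinearMap.smul_apply, map_sub, map_add, map_smul, smul_eq_mul]
    rw [h1]
    ring
  have hphi : ∀ T T' : X →L[ℂ] X, φ ((1 / 2 : ℂ) • (T + T')) = (1 / 2 : ℂ) • (φ T + φ T') := by
    intro T T'
    have h1 := hmid ((1 / 2 : ℂ) • (φ T + φ T')) ((1 / 2 : ℂ) • (φ T - φ T'))
    have h2 : (1 / 2 : ℂ) • (φ T + φ T') + (1 / 2 : ℂ) • (φ T - φ T') = φ T := by
      module
    have h3 : (1 / 2 : ℂ) • (φ T + φ T') - (1 / 2 : ℂ) • (φ T - φ T') = φ T' := by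
      module
    rw [h2, h3, hl, hl] at h1
    rw [h1, smul_smul]
    norm_num
    rw [hr]
  set L : (X →L[ℂ] X) → (Y →L[ℂ] Y) := fun T => φ T - φ 0 with hL
  have hL0 : L 0 = 0 := by simp [hL]
  have hLm : ∀ T T', L ((1 / 2 : ℂ) • (T + T')) = (1 / 2 : ℂ) • (L T + L T') := by
    intro T T'
    simp only [hL]
    rw [hphi]
    module
  have hLh : ∀ T, L ((1 / 2 : ℂ) • T) = (1 / 2 : ℂ) • L T := by
    intro T
    have := hLm T 0
    rwa [add_zero, hL0, add_zero] at this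
  have hLa : ∀ T T', L (T + T') = L T + L T' := by
    intro T T'
    have h1 := hLm T T'
    rw [hLh] at h1
    have h2 := congrArg (fun S => (2 : ℂ) • S) h1
    simp only [smul_smul] at h2
    norm_num at h2
    exact h2
  have hLn : ∀ T, L (-T) = - L T := by
    intro T
    have h1 := hLa T (-T)
    rw [add_neg_cancel, hL0] at h1
    exact (neg_eq_of_add_eq_zero_right h1.symm).symm
  have main : ∀ S ∈ s, ψ S = φ S := by
    intro S hSs
    have key : ∀ G : X →L[ℂ] X, sr (φ S - ψ S + L G) = sr G := by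
      intro G
      have h1 := h.eq (S + G) S hSs
      rw [add_sub_cancel_left] at h1
      rw [← h1]
      congr 1
      have h2 : φ (S + G) = L (S + G) + φ 0 := by simp [hL]
      have h3 : φ S = L S + φ 0 := by simp [hL]
      rw [h2, hLa, h3]
      abel
    have key2 : ∀ G : X →L[ℂ] X, sr (φ S - ψ S - L G) = sr G := by
      intro G
      have h1 := key (-G)
      rw [hLn, sr_neg, ← sub_eq_add_neg] at h1
      exact h1
    have hD : (φ S - ψ S) + (φ S - ψ S) = 0 := by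
      apply eq_zero_of_sr
      intro K
      obtain ⟨T, hT⟩ := h.surj (K + (φ S - ψ S) + φ 0)
      have hT' : L T = K + (φ S - ψ S) := by
        simp only [hL, hT, add_sub_cancel_right]
      have e1 := key T
      have e2 := key2 T
      rw [hT'] at e1 e2
      have e3 : φ S - ψ S - (K + (φ S - ψ S)) = -K := by abel
      rw [e3, sr_neg] at e2
      rw [e2, ← e1]
      congr 1
      abel
    have h5 : (2 : ℂ) • (φ S - ψ S) = 0 := by
      rw [two_smul]
      exact hD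
    have h6 := (smul_eq_zero.1 h5).resolve_left (by norm_num)
    exact (sub_eq_zero.1 h6).symm
  refine ⟨fun T S => ?_, main⟩
  have h1 := h.eq (T - S) 0 h.zero_mem
  rw [main 0 h.zero_mem, sub_zero] at h1
  rw [← h1]
  congr 1
  have h2 : ∀ R, φ R = L R + φ 0 := fun R => by simp [hL]
  have h3 : L T = L (T - S) + L S := by rw [← hLa, sub_add_cancel]
  rw [h2 T, h2 S, h2 (T - S), h3]
  abel

end

end Pool.Agent.Y852.SR
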